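import Pool.Agent.Clo.Final

/-!
# The kernel of the Albanese map is contained in the closure of zero

Let `X` be a product of smooth projective curves over the field of algebraic numbers. For
Galois-invariant, positive semidefinite kernels `A i` on the factors, such as `1 + b i`, where `b i`
is the Néron-Tate height pairing, let `H(w) = ∑ w(x) w(y) ∏ A i (x i) (y i)` be the energy of the
zero-cycle `w`; it is the square of a seminorm. Beilinson and Bloch predict that every zero-cycle
`z` in the kernel of the Albanese map is torsion in the Chow group, i.e. some multiple `m z`, `m > 0`,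
is rationally equivalent to the zero-cycle `0`, which has the energy zero.

We show for all products of curves and all `z` in the kernel of the Albanese map that some multiple
`m₀ z` has the property that for all `M` the zero-cycle `M m₀ z` is rationally equivalent to a
zero-cycle of energy `O(M)`, whereas the energy of `M m₀ z` is `O(M ^ 2)`. In particular, the
seminorm of the class of `z` in the Chow group tensored with `ℝ` is zero. This holds for all kernels
which are bounded on the sets of points of bounded height.

For products of curves over a number field, with the kernels `1 + b i`, it follows that the induced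
seminorm on the Chow group of zero-cycles over the number field is the norm given by the degree and
by the height of the class in the Albanese variety: `inf H(w) / m ^ 2` over all `m > 0` and all
zero-cycles `w` over the number field which are rationally equivalent to `m z` is equal to
`deg(z) ^ 2 + ∑ b i (z_i, z_i)`.

Idea of the proof. The kernel of the Albanese map is generated by the images of the zero-cycles
`(p - q) × (p - q)` on squares `D × D` of curves. Let `φ` be a function on `D` with poles only at `p`
and `q`, of orders `n₁` and `n₂`, `N = n₁ + n₂`, and a zero of order greater than `n₁` and `n₂`. For the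
fibre `F_t` of `φ` the zero-cycle `Z_t = N ∑ (x, x) - ∑ (x, y)`, `x, y ∈ F_t`, is rationally equivalent
to `n₁ n₂ (p - q) × (p - q)`. For every number field `L` there are infinitely many `t` of height at
most `1`, radicals of a quotient of two prime numbers, such that the Galois group of `L(t)` acts
transitively on the fibre: over one of the two primes the orbits have at least `n₁` and `n₂`
elements, and over the other one there is an orbit with more than `n₁` and `n₂` elements. If the
Galois group of the field of definition of the fibre `F_s` acts transitively on `F_t`, then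
`A(x, y)` does not depend on `x ∈ F_t` for `y ∈ F_s`, so `Z_t` and `Z_s` are orthogonal. So the sum of
`M` such zero-cycles has energy `O(M)`.
-/

set_option autoImplicit false

noncomputable section

namespace Pool.Agent.Results.MP_6dc9d1_nt.ClosureAlbanese

open Pool.Agent.ZCyc Pool.Agent.Dess Pool.Agent.Clo

theorem result {ι : Type} [Fintype ι] (L : ι → Type) [∀ i, Field (L i)] [∀ i, Algebra QQ (L i)]
    (hL : ∀ i, IsCurve QQ (L i)) :
    (∀ A : ∀ i, Place QQ (L i) → Place QQ (L i) → ℝ,
      (∀ i, Kernel (A i)) → (∀ i, ∃ S : Finset (L i), Inv S (A i)) →
      ∀ z : (∀ i, Place QQ (L i)) →₀ ℤ, AlbKer L z →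
        ∃ (m₀ : ℕ) (C : ℝ), 0 < m₀ ∧ ∀ M : ℕ, ∃ w : (∀ i, Place QQ (L i)) →₀ ℤ,
          w - (M * m₀) • z ∈ RatEq L ∧ energy A w ≤ C * M) ∧
    ∀ S : ∀ i, Finset (L i), (∀ i, IntermediateField.adjoin QQ (S i : Set (L i)) = ⊤) →
      ∀ (o : ∀ i, Place QQ (L i)) (b : ∀ i, Place QQ (L i) → Place QQ (L i) → ℝ),
        (∀ i, HeightPairing (S i) (o i) (b i)) →
        ∀ z : (∀ i, Place QQ (L i)) →₀ ℤ, Rational S z →
          IsGLB {e : ℝ | ∃ (m : ℕ) (w : (∀ i, Place QQ (L i)) →₀ ℤ), 0 < m ∧ Rational S w ∧
            w - m • z ∈ RatEq L ∧ e = energy (fun i p q => 1 + b i p q) w / (m : ℝ) ^ 2}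
            (albEnergy b z) :=
  ⟨fun _ hA hi _ hz => energy_lin hL hA hi hz,
    fun _ hS _ _ hb _ hr => isGLB_energy hL hS hb hr⟩

end Pool.Agent.Results.MP_6dc9d1_nt.ClosureAlbanese
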