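import Pool.Agent.ZCK.Final

/-!
# Systems of subgroups of infinite rank through every point

For every elliptic curve `E₀` over `ℚ̄` and every point `P₀` of `E₀(ℚ̄)` there are a number field `K`
and subgroups `G E` of `E(ℚ̄)`, one for every Weierstrass curve `E`, of infinite rank if `E` is
elliptic, such that a multiple of `P₀` is in `G E₀`, such that `G E` is stable under `Gal(ℚ̄/L)` if
`E` is defined over the field `L ⊇ K`, and such that the prediction of the conjectures of Beilinson
and Bloch (the Albanese kernel of a product of elliptic curves over `ℚ̄` is torsion) holds for all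
zero-cycles on products `E 1 × ... × E N` of any number of elliptic curves which are supported on
`G (E 1) × ... × G (E N)`, for all families of elliptic curves at the same time. So for number
fields `L ⊇ K` and elliptic curves `E i` over `L` it holds for the zero-cycles over `L` supported on
the closed points whose geometric points are in `G (E 1) × ... × G (E N)`; the degrees of these
points (even of their images modulo torsion) are unbounded.

Idea of the proof. For `u ∈ ℚ̄` and two Legendre curves with parameters `λ`, `μ` let `P` and `Q` be
points with the same abscissa `u`. The curve `x(P) = x(Q)` in the product has genus at most two and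
is hyperelliptic, with hyperelliptic involution induced by `(-1, -1)`; this shows that the symbol of
`P` and `Q` is killed by `2`. Let `G E` be generated by the images in `E(ℚ̄)` of all points with
abscissa `u` of all Legendre curves, under all morphisms to `E` which map the origin to the origin;
this depends on `u` only, and is therefore stable under the automorphisms which fix `K = ℚ(u)`.
We choose `u` such that it is the abscissa of `n P₀ + (1, 0)`, where `n P₀` is `2`-adically close to
the origin; so `u` is close to `1`. Above the Legendre form of `E` (with `|λ| = 1`) there is a binary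
tree of `2`-isogenies, the parameters of which satisfy `1 - λ' = 4 μ / (1 + μ) ^ 2` with
`μ ^ 2 = 1 - λ`. The points of abscissa `u` on infinitely many curves of the tree have independent
images in `E(ℚ̄)`, because of a local argument at the prime two: their fields of definition contain
the square roots of `1 - λ`, and these cannot all be contained in one finite extension of `ℚ₂`
(the quotients of the parameters of the two branches would get arbitrarily close to distance one
from `1`, but the values of the norm are discrete). The same argument gives, for every number field,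
a point which is mapped to its negative by some automorphism over this field; combinations of such
points have arbitrarily many conjugates.
-/

set_option autoImplicit false

noncomputable section

namespace Pool.Agent.Results.MP_6dc9d1_nt.EveryPointK

open Pool.Agent.ZC WeierstrassCurve
open scoped Classical

theorem result (E₀ : WeierstrassCurve (AlgebraicClosure ℚ)) [E₀.IsElliptic]
    (P₀ : E₀.toAffine.Point) :
    ∃ (K : IntermediateField ℚ (AlgebraicClosure ℚ))
      (G : (E : WeierstrassCurve (AlgebraicClosure ℚ)) → AddSubgroup E.toAffine.Point),
      FiniteDimensional ℚ K ∧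
      (∃ n : ℕ, 0 < n ∧ n • P₀ ∈ G E₀) ∧
      (∀ (E E' : WeierstrassCurve (AlgebraicClosure ℚ))
        (φ : E.toAffine.Point →+ E'.toAffine.Point), Lift (fun P => φ P) →
        ∀ a ∈ G E, φ a ∈ G E') ∧
      (∀ (L : IntermediateField ℚ (AlgebraicClosure ℚ)), K ≤ L → ∀ (E : WeierstrassCurve L)
        (σ : AlgebraicClosure ℚ ≃ₐ[L] AlgebraicClosure ℚ), ∀ a ∈ G (E⁄(AlgebraicClosure ℚ)),
        Affine.Point.map (W' := E) (σ : AlgebraicClosure ℚ →ₐ[L] AlgebraicClosure ℚ) a ∈
          G (E⁄(AlgebraicClosure ℚ))) ∧
      (∀ (L : IntermediateField ℚ (AlgebraicClosure ℚ)) [FiniteDimensional ℚ L]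
        (E : WeierstrassCurve L) [E.IsElliptic] (d : ℕ), ∃ a ∈ G (E⁄(AlgebraicClosure ℚ)),
        ∃ σ : Fin d → AlgebraicClosure ℚ ≃ₐ[L] AlgebraicClosure ℚ, ∀ i j, i ≠ j →
          ¬ IsOfFinAddOrder
            (Affine.Point.map (W' := E) (σ i : AlgebraicClosure ℚ →ₐ[L] AlgebraicClosure ℚ) a -
            Affine.Point.map (W' := E) (σ j : AlgebraicClosure ℚ →ₐ[L] AlgebraicClosure ℚ) a)) ∧
      (∀ (E : WeierstrassCurve (AlgebraicClosure ℚ)) [E.IsElliptic],
        ∃ P : ℕ → E.toAffine.Point, LinearIndependent ℤ P ∧ ∀ i, P i ∈ G E) ∧
      ∀ (N : ℕ) (E : Fin N → WeierstrassCurve (AlgebraicClosure ℚ)), (∀ i, (E i).IsElliptic) →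
        ∀ (m : Fin N → ℕ) (z : Z0N E), (∀ p ∈ z.support, ∀ i, m i • p i ∈ G (E i)) →
        z.sum (fun _ a => a) = 0 → (∀ i, z.sum (fun p a => a • p i) = 0) →
        (2 * ∏ i, m i) • z ∈ RatEqN E :=
  resultK_aux E₀ P₀

end Pool.Agent.Results.MP_6dc9d1_nt.EveryPointK
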