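import Pool.Agent.Dess4.Main
import Pool.Agent.Dess4.Quadric

/-!
# Zero-cycles on products of curves and points on no quadric

Let `D` be a smooth projective curve over an algebraically closed field of characteristic zero, and
let `S` be a set of points of `D` which lies on no quadric of the Picard group tensored with the
rational numbers. Then the zero-cycles `x × y + y × x` are torsion for all differences `x`, `y` of
points in `S`, in particular the zero-cycles `(p - q) × (p - q)`. If `S` spans a space of
dimension `r`, then at least `(r + 1) (r + 2) / 2` points are necessary: three points on a line,
six points in a plane. For the zeros and poles of a function with at most three zeros and poles,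
and for every set `S` of rank one with three points which are pairwise different modulo torsion,
even all zero-cycles on `D ^ n`, which are supported on `S ^ n` and lie in the kernel of the Albanese
map, are torsion.

Four points of rank two always lie on a conic, and we show that this case is equivalent to the whole
prediction of the conjectures of Beilinson, that the kernel of the Albanese map is torsion for all
products of curves over number fields. This is already true for the zero-cycles `(p - q) × (p - q)`,
where `D` is defined over `ℚ`, where `p`, `q`, `r`, `s` are rational points and where
`N (p + q - r - s)` is the divisor of a Belyi function in `ℚ(D)`, i.e. a function which is unramified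
outside `0`, `1` and `∞` (a dessin with two black vertices and two faces): the kernel of the Albanese
map of every product of curves over `ℚ̄` is generated by the images of these zero-cycles. It is also
equivalent to the statement for one compatible system of zero-cycles on large Galois étale coverings
of Fermat curves.

Idea of the proof. Let `l` be a functional with rational values on the Chow group of `D × D`. It
gives the symmetric bilinear form `B(x, y) = l(x × y) + l(y × x) - d(x) deg y - deg x d(y)` on the
Picard group, where `d(x)` is the value of `l` at the push-forward of `x` to the diagonal, and
`B(p, p) = 0` for all points `p`. If `S` lies on no quadric, then `B` vanishes on `S`, and `l` vanishes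
at `x × y + y × x`. If `m (a - c) + n (b - c)` is the divisor of a function, then the push-forwards
by `v ↦ (v, x)`, `v ↦ (x, v)` and `v ↦ (v, v)` show that `m (m + n) (a - c) × (a - c)` is torsion,
and `m`, `m + n` are not zero for a function with exactly three zeros and poles.

The kernel of the Albanese map is generated by the images of the mixed differences
`(a - a') × (b - b')` on products of two curves. The two pointed curves `(C, a, a')` and
`(C', b, b')` are dominated by one curve `D` over `ℚ` with rational points `P`, `O`: choose functions
`x`, `x'` on the curves with simple values `0` at `a`, `b` and `1` at `a'`, `b'` and with total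
ramification over points `e`, `e'` such that all conjugates of the branch points are different, and
let `D` be the fibre product of all Galois conjugates of `C → ℙ¹` and `C' → ℙ¹`. It is irreducible
because of the total ramification, and the points above `0` and `1` which lie above the conjugates
of `a`, `b` and `a'`, `b'` are rational.

Then we choose functions over `ℚ` with a single pole at `P`, respectively at `O`, in order to find a
function over `ℚ` whose only poles are `P` and `O`, with the same multiplicity. We apply a polynomial
of Belyi and the polynomial `27 / 4 x² (1 - x)`, obtain a function `u` with the same properties which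
is unramified outside `0`, `1` and `∞` and for which `1 - 1 / u` is not a square, and take the double
covering `s² = 1 - 1 / u` of `D` and the function `h = ((1 + s) / (1 - s))²`. Its zeros are the points
`s = -1` above `P` and `O`, its poles are the points `s = 1` above `P` and `O`; it is unramified
outside `0`, `1` and `∞`, because `u = 1 / (1 - s²)`.

For the last statement we choose a function over `ℚ` on `D` with a single pole at `O` and apply
the polynomials of Belyi. Since `O` is the only pole, every embedding of the function field of `D`
into the field of algebraic functions which is compatible with `P` is compatible with `O`. The lemma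
of Abhyankar gives the coverings of Fermat curves.
-/

set_option autoImplicit false

noncomputable section

namespace Pool.Agent.Results.MP_6dc9d1_nt.FourPoints

open Pool.Agent.ZCyc Pool.Agent.Dess Pool.Agent.Dess4

theorem result :
    (∀ (k F : Type) [Field k] [IsAlgClosed k] [CharZero k] [Field F] [Algebra k F],
      IsCurve k F → ∀ S : Set (Place k F),
        (NoQuadric S → ∀ p ∈ S, ∀ q ∈ S, ∀ p' ∈ S, ∀ q' ∈ S, RatTor (fun _ : Bool => F)
          (sym (L := fun _ => F) p q p' q' + sym (L := fun _ => F) p' q' p q)) ∧
        ((S.encard ≤ 3 ∧ (∃ h : F, ∀ v, v ∈ S ↔ ¬ HasOrd v h 0)) ∨
          (RankLeOne S ∧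
            ∃ a ∈ S, ∃ b ∈ S, ∃ c ∈ S, ¬ DifTor a b ∧ ¬ DifTor b c ∧ ¬ DifTor a c) →
          ∀ (ι : Type) [Fintype ι] (z : (ι → Place k F) →₀ ℤ),
            (∀ a ∈ z.support, ∀ i, a i ∈ S) → AlbKer (fun _ => F) z →
              RatTor (fun _ => F) z)) ∧
    (∀ (ι : Type) [Fintype ι] (L : ι → Type) [∀ i, Field (L i)] [∀ i, Algebra QQ (L i)],
      (∀ i, IsCurve QQ (L i)) → ∀ z : (∀ i, Place QQ (L i)) →₀ ℤ, AlbKer L z →
        z ∈ RatEq L ⊔ AddSubgroup.closure {w | FourCycle L w}) ∧
    ∀ {Ω : Type} [Field Ω] [Algebra QQ Ω] (t : Ω), IsAlgFun t →
      (∃ P O : Place QQ Ω, P.Vanishes t ∧ t ∉ O.ring) ∧
      ∀ P O : Place QQ Ω, P.Vanishes t → t ∉ O.ring →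
        [ZeroCyclesConj, FourPointsConj, CofinalConj t P O].TFAE := by
  refine ⟨?_, fun ι _ L _ _ hL z hz => generation_four' hL hz,
    fun t hΩ => ⟨exists_pair hΩ, fun P O hP hO => four_tfae hΩ hP hO⟩⟩
  intro k F _ _ _ _ _ hF S
  refine ⟨fun hS p hp q hq p' hp' q' hq' => no_quadric hS hp hq hp' hq', ?_⟩
  rintro (⟨h3, h, hS⟩ | ⟨hS, h3⟩) ι _ z hW hz
  · have hfin : S.Finite := Set.finite_of_encard_le_coe h3
    refine three_points (S := hfin.toFinset) hF (h := h) ?_ ?_ ?_ hz
    · intro v
      rw [Set.Finite.mem_toFinset]
      exact hS v
    · rw [hfin.encard_eq_coe_toFinset_card] at h3
      exact_mod_cast h3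
    · intro a ha i
      rw [Set.Finite.mem_toFinset]
      exact hW a ha i
  · exact rank_one hS h3 hW hz

end Pool.Agent.Results.MP_6dc9d1_nt.FourPoints
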