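import Pool.Agent.GTwo.Final

/-!
# Zero-cycles on squares of curves of genus two

Let `C : y² = f(x)` be a curve of genus two over the algebraic numbers. For every divisor `a` of
degree zero on `C` there are infinitely many independent divisors `b` of degree zero such that
`a × b + b × a` and `b × b + N² (a × a)` (`N > 0`) are torsion in the Chow group of zero-cycles
of `C × C`.
-/

set_option autoImplicit false

namespace Pool.Agent.Results.MP_6dc9d1_nt.GenusTwoJacobians

open Polynomial Pool.Agent.GTwo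

theorem result (f : (AlgebraicClosure ℚ)[X]) (hm : f.Monic) (hd : f.natDegree = 5)
    (hs : f.Separable) (a : Pt f →₀ ℤ) (ha : deg a = 0) :
    ∃ b : ℕ → (Pt f →₀ ℤ), (∀ i, deg (b i) = 0) ∧
      LinearIndependent ℤ (fun i => (QuotientAddGroup.mk (b i) : Pic f)) ∧
      ∀ i, ∃ N m : ℕ, 0 < N ∧ 0 < m ∧ (m : ℤ) • (cross a (b i) + cross (b i) a) ∈ RatEq f ∧
        (m : ℤ) • (cross (b i) (b i) + (N ^ 2 : ℤ) • cross a a) ∈ RatEq f :=
  main ⟨hm, hd, hs, isUnit_iff_ne_zero.2 two_ne_zero⟩ a ha

end Pool.Agent.Results.MP_6dc9d1_nt.GenusTwoJacobians
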