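import Pool.Agent.Clo.SharpV
import Pool.Agent.Clo.TameDef2

/-!
# Symbols at points of small height and small degree

Let `X = C_1 × ... × C_n` be a product of smooth projective curves over the field of algebraic
numbers. Beilinson and Bloch predict that the kernel of the Albanese map of `X` is torsion in the
Chow group of zero-cycles. For a field `K` of algebraic numbers, consider the zero-cycles
`(x_i - τ x_i) × (x_j - τ x_j) × ∏ x_l` for points `x` of `X`, indices `i ≠ j`, and `τ` in the absolute
Galois group of `K` which fixes given models of the curves. For `K` large these cycles are zero if
the points are in a fixed finite set.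

We show that, for all number fields `K`, the kernel is generated up to torsion by these cycles, with
points `x` and `τ x` such that the heights of the values of a function `f` on `C_i` are at most
`B_i(f) (1 + (A + log (1 + s)) / k)`, and their degrees are at most `B_i(f) k`. Here `s` is
the number of the prime numbers which are ramified in `K`, and `k > 0` is an arbitrary natural
number. So the product of the height and the degree is bounded independently of `K` up to the
logarithm of the number of ramified primes, which is at most the iterated logarithm of the
discriminant (`unrOutside_discr`). More precisely, for each cycle in the kernel, some multiple which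
does not depend on `K` and `k` is the sum of a number of such cycles which is bounded independently
of `K` and `k`; the constants `B_i(f)` are independent of the models of the curves, too.

Here `K` may also be an infinite extension of `ℚ` which is unramified outside `s` prime numbers, and
it may be replaced by its compositum with any normal extension of `ℚ` in the Galois group of which
the alternating groups of degree at least `n` are not involved (`NoAltSec n`), for example the
field of all numbers which can be expressed by radicals (`noAltSec_rad_bot`), or the field
generated by the numbers of degree at most `d` (`noAltSec_degree`). The bounds do not depend on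
this extension. So over such fields a finite set of points is sufficient.

Conversely, the logarithm has the exact order of growth, unless the cycle is torsion: if, for the
heights `h` and the degrees `g` of the values of `f`, one can achieve that `(1 + h) g ^ 2` is at most
`B_i(f) (A + c log (1 + s))` with a sufficiently small constant `c`, for all number fields `K`, then
the cycle is torsion. This contains the case of points of bounded degree (`torsion_of_small`), but
the degrees may also grow with `s`. In particular, the prediction for the cycle holds if and only if
the logarithm can be replaced by a constant.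

Idea of the proof. It suffices to consider `(p - q) × (p - q)` on the square of a curve `D`. There is a
function `φ` on `D` with poles only at `p` and `q`, of orders `n₁` and `n₂`, and with a zero of order
greater than `n₁` and `n₂`. If the fibre `F_t` over `t` is reduced, then the zero-cycle
`∑ (x - y) × (x - y)`, the sum over all `x, y ∈ F_t`, is rationally equivalent to
`2 n₁ n₂ (p - q) × (p - q)`. Let `l < l'` be the two smallest prime numbers larger than a constant at
which `K` is unramified; by the estimates of Chebyshev, `log l'` is at most
`A + 2 log (1 + s)`. Let `t ^ k = l' / l`. Then the Galois group of `K(t)` acts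
transitively on the fibre: above `l` the orbits have at least `n₁` and `n₂` elements, and above `l'`
there is an orbit with more than `n₁` and `n₂` elements. If `n₁ + n₂` and `n₂` are prime numbers and
`n₂ > n₁ > 2`, then the group contains all even permutations by the theorem of Jordan, and this
remains true over the compositum with a field without alternating groups.
-/

set_option autoImplicit false

noncomputable section

namespace Pool.Agent.Results.MP_6dc9d1_nt.HeightsDegrees

open Pool.Agent.ZCyc Pool.Agent.Dess Pool.Agent.Clo

theorem result {ι : Type} [Fintype ι] (L : ι → Type) [∀ i, Field (L i)] [∀ i, Algebra QQ (L i)]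
    (hL : ∀ i, IsCurve QQ (L i)) :
    (∀ n : ℕ, 5 ≤ n → ∀ z, AlbKer L z → ∃ (m N : ℕ) (B : ∀ i, L i → ℝ), 0 < m ∧
      ∀ S : ∀ i, Finset (L i), ∃ A : ℝ, ∀ (K K1 K2 : IntermediateField ℚ QQ) (T : Finset ℕ),
        UnrOutside T K1 → NoAltSec n K2 → K ≤ K1 ⊔ K2 → ∀ k : ℕ, 0 < k → NewSum K S
          {x | SizeLe B (1 + (A + Real.log (1 + T.card)) / k) k x} N (m • z)) ∧
    (∀ (B : ∀ i, L i → ℝ) (a : ℝ) (k : ℕ), {x : ∀ i, Place QQ (L i) | SizeLe B a k x}.Finite) ∧
    ∀ S : ∀ i, Finset (L i), (∀ i, IntermediateField.adjoin QQ (S i : Set (L i)) = ⊤) →
      ∀ B : ∀ i, L i → ℝ, ∃ c : ℝ, 0 < c ∧ ∀ z : (∀ i, Place QQ (L i)) →₀ ℤ,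
        RatTor L z ↔ ∃ A : ℝ, ∀ (K : IntermediateField ℚ QQ) (T : Finset ℕ), NumberField K →
          (∀ l ∈ T, l.Prime) → UnrOutside T K → ∃ m N : ℕ, 0 < m ∧
            NewSum K S {x | GapLe B (A + c * Real.log (1 + T.card)) x} N (m • z) := by
  refine ⟨fun _ hn _ hz => newSum_size hL hn hz, fun B a k => finite_size hL B a k,
    fun _ hS B => ?_⟩
  obtain ⟨c, hc, h⟩ := torsion_of_gap hL hS B
  refine ⟨c, hc, fun z => ⟨?_, fun ⟨A, hA⟩ => h A z hA⟩⟩
  rintro ⟨m, hm, hz⟩
  refine ⟨0, fun K T _ _ _ => ⟨m, 0, hm, 0, le_rfl, by simp, ?_⟩⟩
  rw [Multiset.sum_zero, zero_sub]
  exact neg_mem hz

end Pool.Agent.Results.MP_6dc9d1_nt.HeightsDegrees
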