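import Pool.Agent.Clo.SigState
import Pool.Agent.Clo.TameDefU
import Pool.Agent.Clo.TameEx
import Pool.Agent.Clo.MDeg

/-!
# The kernel of the Albanese map is generated by new symbols

Let `X = C_1 × ... × C_n` be a product of smooth projective curves over the field of algebraic
numbers. Beilinson and Bloch predict that the kernel of the Albanese map of `X` is torsion in the
Chow group of zero-cycles. It is well known that this kernel is generated by the zero-cycles
`(x - x') × (y - y') × a` with `x, x' ∈ C_i`, `y, y' ∈ C_j`, `i ≠ j`, and a point `a` of the product of
the other curves.

We show that in the absolute Galois group of every number field `K` there is an automorphism `σ_K`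
such that, for all products `X` of curves and all `k > 0`, the kernel is generated, up to torsion, by
the cycles of this form with `x' = τ x` and `y' = τ y`, where `τ` fixes the field `K_k` of the numbers
which are fixed by `σ_K ^ k`. The Galois group of `K_k` is procyclic, generated by `σ_K ^ k`. Every
algebraic number is in one of the fields `K_k`, and for the field of all algebraic numbers the
statement would be the prediction of Beilinson and Bloch. So the kernel is generated by new symbols
for all fields `K_k`, and, as the fields `K_k` contain `K`, for all number fields.

Here `K` may be, more generally, a field of algebraic numbers of finite or infinite degree which is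
contained in the compositum of two fields `K₁` and `K₂` (`TameField`): there are infinitely many prime
numbers above which the ramification of `K₁` is mild at some place (`Mild`), for example `K₁` may be
unramified at infinitely many prime numbers (`mild_of_manyUnr`), or generated by algebraic numbers of
bounded degree (`mild_of_degree`); and `K₂` is normal over `ℚ`, and large alternating groups are not
involved in its Galois group (`NoAltSec`), for example it may consist of all numbers which can be
expressed by radicals over a given number field. See `tameField_rad_degree`.

Moreover, for given `z`, `k` and a given model of `X` (the finite sets `S`), the multiple `m` of `z`,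
the number `N` of the cycles, and the heights of the points are bounded independently of `K`; and the
same `m`, `N` and bound apply to every other model, for the fields `K` over which the second model is
defined. If `K₁` is unramified at infinitely many prime numbers, then the points can also be chosen
such that their degrees are bounded independently of `K`. But if, for one field `K` and all models,
the points can be chosen such that both their heights and their degrees are bounded, or, more
generally, such that they have bounded heights and lie in a set with the Northcott property
(`northcott_degree`), then `z` is torsion.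

Idea of the proof. It suffices to consider `(p - q) × (p - q)` on the square of a curve `D`. There is a
function `φ` on `D` with poles only at `p` and `q`, of orders `n₁` and `n₂`, and with a zero of order
greater than `n₁` and `n₂`. If the fibre `F_t` over `t` is reduced, then the zero-cycle
`∑ (x - y) × (x - y)`, the sum over all `x, y ∈ F_t`, is rationally equivalent to
`2 n₁ n₂ (p - q) × (p - q)`. For given `K₁` there are numbers `t` of height at most one, radicals of
elements of `K₁` (or, for the degrees, rational numbers `t`), such that the Galois group of `K₁(t)`
acts transitively on the fibre: over one of two large prime numbers the orbits have at least `n₁` and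
`n₂` elements, and over the other one there is an orbit with more than `n₁` and `n₂` elements. If
`n₁ + n₂` and `n₂` are prime numbers and `n₂ > n₁ > 2`, then the group contains all even permutations
by the theorem of Jordan, and this remains true over the compositum with `K₂`. Finally `σ_K` is
constructed step by step, such that `σ_K ^ k` acts as a cycle of length `n₁ + n₂` on a fibre for each
of the countably many symbols on all curves, each `k` and each model; the prime numbers `n₁ + n₂` are
different from each other.
-/

set_option autoImplicit false

noncomputable section

namespace Pool.Agent.Results.MP_6dc9d1_nt.NewSymbols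

open Pool.Agent.ZCyc Pool.Agent.Dess Pool.Agent.Clo

theorem result :
    (∀ n : ℕ, 5 ≤ n → ∃ σ : IntermediateField ℚ QQ → Gam,
      (∀ K, TameField n K → ∀ c ∈ K, σ K c = c) ∧
      ∀ (ι : Type) [Fintype ι] (L : ι → Type) [∀ i, Field (L i)] [∀ i, Algebra QQ (L i)],
        (∀ i, IsCurve QQ (L i)) → ∀ z, AlbKer L z → ∀ k : ℕ, 0 < k → ∀ S : ∀ i, Finset (L i),
        ∃ (m N : ℕ) (B : ∀ i, L i → ℝ) (D : ∀ i, L i → ℕ), 0 < m ∧
          ∀ S' : ∀ i, Finset (L i), ∃ C : Finset QQ, ∀ K, TameField n K →
            (S' = S ∨ ∀ c ∈ C, c ∈ K) →
              NewSum (FixF (σ K ^ k)) S' {x | HtLe B x} N (m • z) ∧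
              (UnrField n K → NewSum (FixF (σ K ^ k)) S' {x | DegLe D x} N (m • z))) ∧
    ∀ (ι : Type) [Fintype ι] (L : ι → Type) [∀ i, Field (L i)] [∀ i, Algebra QQ (L i)],
      (∀ i, IsCurve QQ (L i)) →
      (∀ K S E N z, NewSum (L := L) K S E N z → AlbKer L z) ∧
      ∀ (K : IntermediateField ℚ QQ) (f : ∀ i, L i), (∀ i, Transcendental QQ (f i)) →
        ∀ Ω : Set QQ, NorthcottSet Ω → ∀ (B : ∀ i, L i → ℝ) z, (∀ S : ∀ i, Finset (L i),
          ∃ m N : ℕ, 0 < m ∧ NewSum K S {x | HtLe B x ∧ ValIn f Ω x} N (m • z)) → RatTor L z := by
  refine ⟨fun n hn => ?_, fun ι _ L _ _ hL => ⟨fun K S E N z h => h.albKer,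
    fun K f hf Ω hΩ B z h => ?_⟩⟩
  · obtain ⟨σ, hσ, H⟩ := sigma_univ hn
    refine ⟨σ, fun K hK => hσ K hK.tame, fun ι _ L _ _ hL z hz k hk S => ?_⟩
    obtain ⟨m, N, B, D, hm, h⟩ := H ι L hL z hz k hk S
    refine ⟨m, N, B, D, hm, fun S' => ?_⟩
    obtain ⟨C, hC⟩ := h S'
    refine ⟨C, fun K hK hS' => ?_⟩
    obtain ⟨h1, h2⟩ := hC K hK.tame hS'
    exact ⟨h1, fun hU => h2 hU.tameU⟩
  · refine torsion_of_northcott (K := K) hL hf hΩ B fun S => ?_
    obtain ⟨m, N, hm, l, -, h1, h2⟩ := h S
    exact ⟨m, l, hm, h1, h2⟩

end Pool.Agent.Results.MP_6dc9d1_nt.NewSymbols
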