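import Pool.Agent.ZCQL.Final3

/-!
# Galois-invariant zero-cycles on products of elliptic curves of rank four

Let `A = A₁ × … × A_N` be a product of elliptic curves over a field `L ⊆ ℚ̄` and `z = ∑ aⱼ pⱼ` a
Galois-invariant zero-cycle of degree zero on `A` over `ℚ̄` with sum zero, that is a zero-cycle on `A`
over `L` in the Albanese kernel. For number fields the conjectures of Beilinson and Bloch and of Birch
and Swinnerton-Dyer predict that `z` is torsion. The theorem proves it under two conditions which only
concern the points of the curves `Aᵢ`.

* The first condition: `∑ aⱼ f(pⱼ) = 0` for all Galois-invariant functions `f` with rational values on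
  at least two of the factors, additive in each variable, which vanish when two coordinates are in the
  groups `HE(Aᵢ, v)`, `HE(Aₖ, v)` for some `v`. The group `HE(E, v)` is the saturation of the group
  generated by the images in `E` of the points with abscissa `v` of Legendre curves.
* The second condition: every `pⱼ` has a multiple which is a sum of points `h₁, …, hₘ`, each of which
  is orthogonal to its conjugates for a simple reason (only one component is not zero, or all
  components are in the groups `HE` for one `v`, for example `hₖ = (a₁ R, …, a_N R)` on `E^N`), such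
  that the traces of the components of the `hₖ` are in the groups `HE` for one fixed `v₀`, and any `N`
  of the `hₖ` are Galois-independent over `L`.

The last assumption on the traces is always satisfied if the groups of `L`-rational points are
contained in the groups `HE` for `v₀`. This is proved for the elliptic curves `E₀` and `E₁` below for
`L = ℚ`, where the ranks are `4` and `3`, for the quadratic fields `L = ℚ(√(130 p))` with `p` prime,
`p ≡ 353 mod 57720`, and for all fields `L` over which the ranks of `E₀` and `E₁` are `4` and `3`.
So the theorem contains for these fields and the products of copies of `E₀` and `E₁` all zero-cycles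
supported on `L`-rational points, on closed points `(p₁, …, p_N)` with linearly disjoint fields
`L(p₁)`, …, `L(p_N)`, on the translates by `L`-rational points of elliptic curves in `E₀^N`, and, for
`N = 2`, on the sums of points `(a R, b R)`, `R` in `E₀(L(√d))`, with different `d`.

Idea of the proof. Points of Legendre curves `y² = x (x - 1) (x - λ)`, `λ ∈ ℚ̄`, with the same abscissa
are orthogonal (`Pool.Agent.ZC`): their symbols are killed by two. The class of a zero-cycle is an
affine function of every coordinate, its composition with a homomorphism to `ℚ` is averaged over the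
Galois group and decomposed into multilinear functions. The four points of the curve
`y² = x (x - 13 α) (x - 13 β)` with the abscissas `8 α`, `8 β`, `5 α`, `5 β` all have the abscissa
`8 / 13` in one of the six Legendre forms; the conditions for their rationality define a curve of genus
one and positive rank, which gives infinitely many `j`-invariants. The ranks over `ℚ` are computed by
Mordell's theorem and complete `2`-descents, and the quadratic twists by `130 p` have no points of
infinite order by two symbolic `2`-descents.
-/

set_option autoImplicit false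

noncomputable section

namespace Pool.Agent.Results.MP_6dc9d1_nt.RationalPointsRankFour

open WeierstrassCurve Pool.Agent.ZC Pool.Agent.ZCQ Pool.Agent.ZCQK Pool.Agent.ZCQL
open scoped Classical

theorem result :
    (∀ (L : IntermediateField ℚ (AlgebraicClosure ℚ)) (N : ℕ) (A : Fin N → WeierstrassCurve L)
      (z : Z0N fun i => (A i)⁄(AlgebraicClosure ℚ)), (∀ i, (A i).IsElliptic) →
      (∀ σ : AlgebraicClosure ℚ ≃ₐ[L] AlgebraicClosure ℚ,
        z.mapDomain (fun p i => galL (A i) σ (p i)) = z) →
      z.sum (fun _ n => n) = 0 → (∀ i, z.sum (fun p n => n • p i) = 0) →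
      (FormCond A z ∨ SumCond A z) →
      ∃ M : ℕ, 0 < M ∧ M • z ∈ RatEqN fun i => (A i)⁄(AlgebraicClosure ℚ)) ∧
    (∀ (E : WeierstrassCurve (AlgebraicClosure ℚ)) (P : E.toAffine.Point), E.IsElliptic →
      ∃ v, P ∈ HE E v) ∧
    ∃ E : ℕ → WeierstrassCurve ℚ, (∀ n, (E n).IsElliptic) ∧
      (∀ n n', (E n).c₄ ^ 3 / (E n).Δ = (E n').c₄ ^ 3 / (E n').Δ → n = n') ∧
      (∀ n, n ≠ 1 → ∃ P : Fin 4 → ((E n)⁄(AlgebraicClosure ℚ)).toAffine.Point,
        LinearIndependent ℤ P ∧ ∀ i, (∀ σ : AlgebraicClosure ℚ ≃ₐ[ℚ] AlgebraicClosure ℚ,
          Affine.Point.map (W' := (E n).toAffine) σ.toAlgHom (P i) = P i) ∧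
          P i ∈ HE ((E n)⁄(AlgebraicClosure ℚ)) (8 / 13)) ∧
      E 0 = ⟨0, -10660, 0, 28138500, 0⟩ ∧ E 1 = ⟨0, 1430, 0, -5272800, 0⟩ ∧
      (∀ n, n < 2 → ∀ L : IntermediateField ℚ (AlgebraicClosure ℚ),
        Module.finrank ℤ ((E n)⁄L).toAffine.Point = 4 - n →
        ∀ P : (((E n)⁄L)⁄(AlgebraicClosure ℚ)).toAffine.Point,
          (∀ σ : AlgebraicClosure ℚ ≃ₐ[L] AlgebraicClosure ℚ, galL ((E n)⁄L) σ P = P) →
          P ∈ HE (((E n)⁄L)⁄(AlgebraicClosure ℚ)) (8 / 13)) ∧
      (∀ n, n < 2 → ∀ L : IntermediateField ℚ (AlgebraicClosure ℚ), (L = ⊥ ∨ QF L) →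
        Module.finrank ℤ ((E n)⁄L).toAffine.Point = 4 - n) ∧
      {L : IntermediateField ℚ (AlgebraicClosure ℚ) | QF L}.Infinite ∧
      ∀ L : IntermediateField ℚ (AlgebraicClosure ℚ), QF L → Module.finrank ℚ L = 2 :=
  main_aux3

end Pool.Agent.Results.MP_6dc9d1_nt.RationalPointsRankFour
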